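import Mathlib
import Pool.Agent.R389.RatMain2
import Pool.Agent.Results.MP_100fe7_nt.FieldOfTheZeros

/-!
# Rational Artin twists and the field of the zeros

Let `M` be a pure motive over `ℚ` with rational coefficients, critical at the integer `c` (one can
replace `M` by `M(c)`, and `c` by `0`), and let `K/ℚ` be a Galois extension with the group `G`. Let
`E` be a number field which contains the roots of unity of order the exponent of `G`.

* `L χ`, for an irreducible complex character `χ` of `G`, is the L-function of the twist of `M` by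
  `χ`. Since `M` has rational coefficients it does not depend on an embedding of `E`.
* `P τ χ`, for an embedding `τ` of `E`, is the component at `τ` of the period of `M ⊗ χ'`, where `χ'` is
  the Artin motive over `E` with `τ ∘ χ' = χ`.

L-functions and periods of direct sums are products. For a rational representation `ρ` of `G` the
motive `M ⊗ ρ` has rational coefficients; its period `Ω = c⁺(M ⊗ ρ)` is a complex number, given up to
a rational factor. After the extension of the coefficients to `E` it is the product of the periods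
`P τ χ` over the irreducible constituents, up to a factor in `E`.

Let `F = K^N` be any Galois subfield of `K`, such that the order of `L(M/K, s)` at `c` is not larger than
that of `L(M/F, s)`: all zeros come from `F`. Suppose that Deligne's conjecture holds for the twists
of `M` by the characters induced from linear characters of the hyperelementary and of the nilpotent
subgroups of `G`. Then for every rational representation `ρ` of `G` and its part `σ` fixed by `N`, the
quotient `L(M ⊗ ρ, s) / L(M ⊗ σ, s)` has at `c` a value which is a NONZERO RATIONAL multiple of the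
quotient of the periods. For a permutation representation `ρ`, of `G` on `G / H`, this is the quotient
of the L-functions of `M` over the field `K₁ = K^H` and over `K₁ ∩ F`; so the assertion of Deligne's
conjecture for `M` over any subfield `K₁` of `K` (a field which is not assumed Galois) is equivalent to
the one for `M` over `K₁ ∩ F`. For `σ = 0` it says that `L(M ⊗ ρ, c)` is a nonzero rational multiple of the
period. There is no condition on the group `G` and on the order of the zeros.

The proof uses the relative form of Brauer's theorem `Pool.Agent.R389.relative_brauer` of the library,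
as `MP_100fe7_nt.FieldOfTheZeros`, and the descent from `E` to `ℚ`.
-/

set_option autoImplicit false
set_option linter.unusedSectionVars false

open Pool.Agent.H302R2 Pool.Agent.H302R3 Pool.Agent.H541R3.ART Pool.Agent.W446.AS
open Pool.Agent.R389 Filter Topology

namespace Pool.Agent.Results.MP_b696eb_nt.RationalFieldOfZeros

/-- The L-functions and the periods at `c` of the twists of a motive with rational coefficients by
the irreducible characters of the finite group `G`, for the embeddings `τ` of the field `E`. -/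
structure TwistData (G : Type) [Group G] (E : Type) [Field E] (c : ℂ) where
  /-- the L-function of the twist by `χ` -/
  L : (G → ℂ) → ℂ → ℂ
  /-- the period of the twist by `χ` -/
  P : (E →+* ℂ) → (G → ℂ) → ℂ
  /-- the L-functions are meromorphic at `c` and not identically zero near `c` -/
  mero : ∀ χ ∈ Irr G, MeromorphicAt (L χ) c ∧ meromorphicOrderAt (L χ) c ≠ ⊤
  /-- the periods are not zero -/
  period : ∀ τ, ∀ χ ∈ Irr G, P τ χ ≠ 0

variable {G : Type} [Group G] {E : Type} [Field E] {c : ℂ}

/-- Deligne's conjecture for the twist by the representation over `E` with the character `f`. -/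
def TwistData.Holds (D : TwistData G E c) (f : G → E) : Prop := Deligne (fun _ => D.L) D.P c f

/-- the L-function of the twist by the complex representation which contains `m χ` times the
irreducible representation with the character `χ` -/
noncomputable def TwistData.lfun (D : TwistData G E c) (m : (G → ℂ) → ℕ) (s : ℂ) : ℂ :=
  ∏ᶠ χ ∈ Irr G, D.L χ s ^ m χ

/-- the part of this L-function which belongs to the irreducible characters `χ` in the set `S` -/
noncomputable def TwistData.lfunOn (D : TwistData G E c) (S : Set (G → ℂ)) (m : (G → ℂ) → ℕ)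
    (s : ℂ) : ℂ :=
  ∏ᶠ χ ∈ S, D.L χ s ^ m χ

/-- The irreducible characters of `G` which are trivial on the normal subgroup `N`: the irreducible
characters of `G / N`. -/
def TrivialOn (N : Subgroup G) : Set (G → ℂ) := {χ ∈ Irr G | ∀ k ∈ N, χ k = χ 1}

/-- `Ω` is a period of the twist by the rational representation which contains `m χ` times `χ`: up to
a nonzero factor in `E` it is, at every embedding of `E`, the product of the periods of the
irreducible constituents. -/
def TwistData.IsPeriod (D : TwistData G E c) (m : (G → ℂ) → ℕ) (Ω : ℂ) : Prop :=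
  ∃ u : E, ∀ τ : E →+* ℂ, ∏ᶠ χ ∈ Irr G, D.P τ χ ^ m χ = τ u * Ω

/-- The rational representation `ρ` of `G` contains `m χ` times the irreducible complex character
`χ`. -/
def Multiplicities {V : Type} [AddCommGroup V] [Module ℚ V] (ρ : Representation ℚ G V)
    (m : (G → ℂ) → ℕ) : Prop :=
  IsDecomp (fun g => ((ρ.character g : ℚ) : ℂ)) m

/-- The representation `σ`, with the map `ι`, is the part of the rational representation `ρ` of `G`
fixed by the subgroup `N`. -/
structure IsFixedPart {V W : Type} [AddCommGroup V] [Module ℚ V] [AddCommGroup W] [Module ℚ W]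
    (N : Subgroup G) (ρ : Representation ℚ G V) (σ : Representation ℚ G W) (ι : W →ₗ[ℚ] V) :
    Prop where
  /-- `σ` is a subrepresentation of `ρ` -/
  inj : Function.Injective ι
  /-- `ι` commutes with the action of `G` -/
  comm : ∀ g w, ι (σ g w) = ρ g (ι w)
  /-- the image is the space of the vectors fixed by `N` -/
  range : ∀ v, (∃ w, ι w = v) ↔ ∀ k ∈ N, ρ k v = v

section proof

variable [Finite G] {ℓ : (G → ℂ) → ℂ → ℂ} {P : (E →+* ℂ) → (G → ℂ) → ℂ}

lemma tw_one (f : G → ℂ) : twHom (1 : G →* ℂˣ) f = f := by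
  funext g
  change f g * (((1 : G →* ℂˣ) g : ℂˣ) : ℂ) = f g
  rw [MonoidHom.one_apply, Units.val_one, mul_one]

lemma tw_one' (f : G → ℂ) : twHom (1 : G →* ℂˣ)⁻¹ f = f := by
  funext g
  change f g * (((1 : G →* ℂˣ)⁻¹ g : ℂˣ) : ℂ) = f g
  rw [MonoidHom.inv_apply, MonoidHom.one_apply, inv_one, Units.val_one, mul_one]

/-- the difference of the characters of `ρ` and of its part fixed by `N` -/
theorem rat_new {ζ : E} (hζ : IsPrimitiveRoot ζ (Monoid.exponent G))
    (hL : ∀ χ ∈ Irr G, MeromorphicAt (ℓ χ) c ∧ meromorphicOrderAt (ℓ χ) c ≠ ⊤)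
    (hP : ∀ τ, ∀ χ ∈ Irr G, P τ χ ≠ 0)
    (hmon : ∀ (U : Subgroup G) (ψ : U →* Eˣ), Tame U →
      Deligne (fun _ => ℓ) P c (ind U (fun u => ((ψ u : Eˣ) : E)))) (τ₀ : E →+* ℂ)
    (N : Subgroup G) [N.Normal]
    (hK : ∀ k ∈ N, (theta (ords ℓ c) : G → ℂ) k
      = (((1 : G →* ℂˣ) k : ℂˣ) : ℂ) * (theta (ords ℓ c) : G → ℂ) 1)
    {V W : Type} [AddCommGroup V] [Module ℚ V] [FiniteDimensional ℚ V] [AddCommGroup W] [Module ℚ W]
    [FiniteDimensional ℚ W] {ρ : Representation ℚ G V} {σ : Representation ℚ G W} {ι : W →ₗ[ℚ] V}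
    (h : IsFixedPart N ρ σ ι) :
    ∃ (f : G → E) (e : E), e ≠ 0 ∧
      (∀ g, τ₀ (f g) = ((ρ.character g : ℚ) : ℂ) - ((σ.character g : ℚ) : ℂ)) ∧
      DelZ (fun _ => ℓ) P c f e := by
  have hL' : ∀ τ : E →+* ℂ, ∀ χ ∈ Irr G, MeromorphicAt ((fun _ : E →+* ℂ => ℓ) τ χ) c ∧
      meromorphicOrderAt ((fun _ : E →+* ℂ => ℓ) τ χ) c ≠ ⊤ := fun _ => hL
  have hpart : MP_100fe7_nt.FieldOfTheZeros.IsPart N (1 : G →* ℚˣ) ρ σ ι :=
    ⟨h.inj, h.comm, fun v => by simpa using h.range v⟩
  have h0 : (Units.map (Rat.castHom ℂ).toMonoidHom).comp (1 : G →* ℚˣ) = 1 := by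
    ext x
    simp
  have hσ : ∀ g, ((σ.character g : ℚ) : ℂ) = inv N (fun g => ((ρ.character g : ℚ) : ℂ)) g := by
    intro g
    have h1 := MP_100fe7_nt.FieldOfTheZeros.part_char (Rat.castHom ℂ) N (1 : G →* ℚˣ) hpart g
    rw [h0, tw_one', tw_one] at h1
    exact h1
  have hf' : Virt (fun g => ((ρ.character g : ℚ) : ℂ)) :=
    virt_of_closure (base_change (Rat.castHom ℂ) ρ)
  set f' : G → ℂ := fun g => ((ρ.character g : ℚ) : ℂ) with hf'd
  have hnew : f' - inv N f' ∈ NewA N := by
    refine relative_brauer N (sub_mem (S := AddSubgroup (G → ℂ)) hf' (virt_inv N hf')) ?_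
    have h1 : inv N (f' - inv N f') = inv N f' - inv N (inv N f') := map_sub (invHom N) _ _
    rw [h1, inv_of_const N (f := inv N f') (fun g k hk => inv_mul_mem N f' g hk), sub_self]
  have h1 := new_twistT N 1 hnew
  rw [AddSubgroup.mem_comap, tw_one] at h1
  obtain ⟨fs, es, hs1, he0, hs2⟩ := new_unitT hζ hL' hP hmon τ₀ hK h1
  refine ⟨fs, es, he0, fun g => ?_, hs2⟩
  rw [hs1, Pi.sub_apply, hσ]

end proof

/-- **Rational Artin twists and the field of the zeros.** Suppose that Deligne's conjecture holds at
`c` for the twists by the characters of `G` induced from linear characters of subgroups which are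
hyperelementary or nilpotent. Let `d χ = χ(1)`, so that `D.lfun d` is the L-function of the base change
of `M` to `K`, and let `N` be a normal subgroup of `G` such that the order of this function at `c` is not
larger than that of the L-function of the base change of `M` to the field of fixed points of `N`. Let
`ρ` be a rational representation of `G`, `σ` its part fixed by `N`, and let `Ω`, `Ω'` be periods of the
twists of `M` by `ρ` and by `σ`. Then `L(M ⊗ ρ, s) / L(M ⊗ σ, s)` has at `c` a value which is a nonzero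
rational multiple of `Ω / Ω'`. -/
theorem result (G : Type) [Group G] [Finite G] (E : Type) [Field E] [NumberField E] (ζ : E)
    (hζ : IsPrimitiveRoot ζ (Monoid.exponent G)) (c : ℂ) (D : TwistData G E c)
    (hmon : ∀ (U : Subgroup G) (ψ : U →* Eˣ), Hyper U ∨ Group.IsNilpotent U →
      D.Holds (ind U (fun u => ((ψ u : Eˣ) : E))))
    (d : (G → ℂ) → ℕ) (hd : ∀ χ ∈ Irr G, χ 1 = d χ) (N : Subgroup G) [N.Normal]
    (hz : meromorphicOrderAt (D.lfun d) c ≤ meromorphicOrderAt (D.lfunOn (TrivialOn N) d) c)
    (V W : Type) [AddCommGroup V] [Module ℚ V] [FiniteDimensional ℚ V]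
    [AddCommGroup W] [Module ℚ W] [FiniteDimensional ℚ W]
    (ρ : Representation ℚ G V) (σ : Representation ℚ G W) (ι : W →ₗ[ℚ] V)
    (h : IsFixedPart N ρ σ ι) (m m' : (G → ℂ) → ℕ) (hm : Multiplicities ρ m)
    (hm' : Multiplicities σ m') (Ω Ω' : ℂ) (hΩ : D.IsPeriod m Ω) (hΩ' : D.IsPeriod m' Ω') :
    ∃ q : ℚ, q ≠ 0 ∧
      Tendsto (fun s => D.lfun m s / D.lfun m' s) (𝓝[≠] c) (𝓝 (q * (Ω / Ω'))) := by
  classical
  obtain ⟨τ₀⟩ : Nonempty (E →+* ℂ) := inferInstance
  have hL' : ∀ τ : E →+* ℂ, ∀ χ ∈ Irr G, MeromorphicAt ((fun _ : E →+* ℂ => D.L) τ χ) c ∧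
      meromorphicOrderAt ((fun _ : E →+* ℂ => D.L) τ χ) c ≠ ⊤ := fun _ => D.mero
  have hmon' : ∀ (U : Subgroup G) (ψ : U →* Eˣ), Hyper U →
      Deligne (fun _ => D.L) D.P c (ind U (fun u => ((ψ u : Eˣ) : E))) :=
    fun U ψ hU => hmon U ψ (Or.inl hU)
  have hset : {χ ∈ Irr G | ∀ k ∈ N, χ k = χ 1 * (((1 : G →* ℂˣ) k : ℂˣ) : ℂ)} = TrivialOn N := by
    ext χ
    simp [TrivialOn]
  have hK := zeros_old hζ hL' hmon' τ₀ hd N 1 (by rw [hset]; exact hz)
  obtain ⟨fs, e, he0, hfs, he⟩ := rat_new hζ D.mero D.period hmon τ₀ N hK h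
  obtain ⟨u, hu⟩ := hΩ
  obtain ⟨u', hu'⟩ := hΩ'
  have hne : ∀ (τ : E →+* ℂ) (n : (G → ℂ) → ℕ), ∏ᶠ χ ∈ Irr G, D.P τ χ ^ n χ ≠ 0 := by
    intro τ n
    rw [finprod_irr (fun χ => D.P τ χ ^ n χ)]
    exact Finset.prod_ne_zero_iff.mpr
      (fun χ hχ => pow_ne_zero _ (D.period τ χ (mem_irrF.mp hχ)))
  have hu0 : u ≠ 0 := by
    rintro rfl
    exact hne τ₀ m (by rw [hu, map_zero, zero_mul])
  have hu0' : u' ≠ 0 := by
    rintro rfl
    exact hne τ₀ m' (by rw [hu', map_zero, zero_mul])
  have hO : Ω ≠ 0 := by
    rintro rfl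
    exact hne τ₀ m (by rw [hu, mul_zero])
  have hO' : Ω' ≠ 0 := by
    rintro rfl
    exact hne τ₀ m' (by rw [hu', mul_zero])
  -- the character `fs` is the difference, at every embedding
  have hfq : ∀ g, fs g = algebraMap ℚ E (ρ.character g - σ.character g) := by
    intro g
    apply τ₀.injective
    rw [hfs, eq_ratCast, map_ratCast]
    push_cast
    rfl
  have hlim : ∀ τ : E →+* ℂ, Tendsto (fun s => D.lfun m s / D.lfun m' s) (𝓝[≠] c)
      (𝓝 (τ (e * (u / u')) * (Ω / Ω'))) := by
    intro τ
    have hf : (fun g => algebraMap ℚ E (ρ.character g))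
        = (fun g => algebraMap ℚ E (σ.character g)) + fs := by
      funext g
      rw [Pi.add_apply, hfq, ← map_add]
      congr 1
      ring
    have hc : ∀ {X : Type} [AddCommGroup X] [Module ℚ X] (κ : Representation ℚ G X),
        (fun g => τ (algebraMap ℚ E (κ.character g))) = fun g => ((κ.character g : ℚ) : ℂ) := by
      intro X _ _ κ
      funext g
      rw [eq_ratCast, map_ratCast]
    have h1 := MP_100fe7_nt.FieldOfTheZeros.quot_of_delZ hL' D.period hf he τ m m'
      (by rw [hc ρ]; exact hm) (by rw [hc σ]; exact hm')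
    rw [hu, hu'] at h1
    have h2 : τ e * (τ u * Ω / (τ u' * Ω')) = τ (e * (u / u')) * (Ω / Ω') := by
      rw [map_mul, map_div₀]
      have h3 : τ u' ≠ 0 := (map_ne_zero τ).mpr hu0'
      field_simp
    rw [h2] at h1
    exact h1
  obtain ⟨q, hq⟩ := rat_of_embeddings (e * (u / u')) (τ₀ (e * (u / u'))) (fun τ => by
    have h2 := tendsto_nhds_unique (hlim τ) (hlim τ₀)
    exact mul_right_cancel₀ (div_ne_zero hO hO') h2)
  refine ⟨q, ?_, ?_⟩
  · rintro rfl
    rw [map_zero] at hq
    exact (mul_ne_zero he0 (div_ne_zero hu0 hu0')) hq.symm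
  · have h2 := hlim τ₀
    rw [← hq, eq_ratCast, map_ratCast] at h2
    exact h2

end Pool.Agent.Results.MP_b696eb_nt.RationalFieldOfZeros
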