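import Mathlib
import Pool.Agent.N28.DL.Quot

/-!
# Deligne's conjecture for the rational Artin twists by nonsolvable groups

Let `M` be a pure motive over `ℚ` with rational coefficients, critical at the integer `c` (one can
replace `M` by `M(c)`, and `c` by `0`), and let `K/ℚ` be a Galois extension with the group `G`. Let
`E` be a number field which contains the roots of unity of order the exponent of `G`.

* `L χ`, for an irreducible complex character `χ` of `G`, is the L-function of the twist of `M` by
  `χ`. Since `M` has rational coefficients it does not depend on an embedding of `E`.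
* `P τ χ`, for an embedding `τ` of `E`, is the component at `τ` of the period of `M ⊗ χ'`, where `χ'` is
  the Artin motive over `E` with `τ ∘ χ' = χ`.

L-functions and periods of direct sums are products. For a rational representation `ρ` of `G` the
motive `M ⊗ ρ` has rational coefficients; its period `Ω = c⁺(M ⊗ ρ)` is a complex number, given up to
a rational factor. After the extension of the coefficients to `E` it is the product of the periods
`P τ χ` over the irreducible constituents, up to a factor `u` in `E`.

The theorem is the assertion `L(M ⊗ ρ, c) ∈ ℚ Ω` for all rational `ρ`, assuming Deligne's conjecture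
for the twists of `M` by the monomial characters `Ind_U^G ψ` (that is, for the twists of the base
change of `M` to the subfields of `K` by Hecke characters of finite order), when the order `r` of
`L(M/K, s)` at `c` is small with respect to the nonsolvable part of `G`. For example, `G` may be the
alternating or the symmetric group of degree `m`, where `r < (2 ^ j - 1) ⌊m / 2 ^ j⌋` for some `j ≥ 2`
(so `r` may be almost as large as the smallest degree `m - 1` of a nonlinear character if `m` is
large), an iterated wreath product of alternating groups, or a group like `SL_n(q)`, `GL_n(q)`,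
`ΓL_n(q)`, `Sp_{2 n}(2 ^ f)` with explicit bounds for `r`. In general `G` has a normal subgroup `R` which is
built from layers of such groups, and the quotient `Q = G / R` is solvable and has a normal series
`Q = N 0 ≥ … ≥ N l = 1` with abelian layers such that the number `s k p` of the zeros which do not come
from the largest Galois subextension of `K^R` over the fixed field `F k` of `N k` whose Galois group
over `F k` has abelian Sylow `p`-subgroups is smaller than `p ^ n` whenever the layer
`N k / N (k + 1)` has at least `p ^ (2 n)` elements of order dividing `p`, and a prime divisor `q ≠ p` of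
`(Q : N k)` divides `p ^ i - 1` for some `1 ≤ i ≤ 2 n`.

If there are no zeros the theorem follows from Brauer's theorem on induced characters; but this
theorem needs quotients of L-values, and these may be zero. The proof shows that each irreducible
character of `G` is monomial, or a combination of monomial characters whose L-functions do not vanish
at `c`: let `θ` be the class function in which an irreducible character has the order of its
L-function as multiplicity. It is a Heilbronn function of degree `r`, hence invariant under `R`, and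
the characters nontrivial on `R` are treated by a relative form of Brauer's theorem; for the
characters of `Q` see `Pool/Agent/N28/DL/Chain.lean` and `Gen.lean`.
-/

set_option autoImplicit false

open Pool.Agent.H302R2 Pool.Agent.H541R3.ART Pool.Agent.R389 Pool.Agent.TH820 Filter Topology

namespace Pool.Agent.Results.MP_b696eb_nt.RationalTwistsNonsolvable

/-- The L-functions and the periods at `c` of the twists of a motive with rational coefficients by
the irreducible characters of the finite group `G`, for the embeddings `τ` of the field `E`. -/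
structure TwistData (G : Type) [Group G] (E : Type) [Field E] (c : ℂ) where
  /-- the L-function of the twist by `χ` -/
  L : (G → ℂ) → ℂ → ℂ
  /-- the period of the twist by `χ` -/
  P : (E →+* ℂ) → (G → ℂ) → ℂ
  /-- the L-functions are meromorphic at `c` and not identically zero near `c` -/
  mero : ∀ χ ∈ Irr G, MeromorphicAt (L χ) c ∧ meromorphicOrderAt (L χ) c ≠ ⊤
  /-- the periods are not zero -/
  period : ∀ τ, ∀ χ ∈ Irr G, P τ χ ≠ 0

variable {G : Type} [Group G] {E : Type} [Field E] {c : ℂ}

/-- Deligne's conjecture for the twist by the representation over `E` with the character `f`. -/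
def TwistData.Holds (D : TwistData G E c) (f : G → E) : Prop := Deligne (fun _ => D.L) D.P c f

/-- the L-function of the twist by the complex representation which contains `m χ` times the
irreducible representation with the character `χ` -/
noncomputable def TwistData.lfun (D : TwistData G E c) (m : (G → ℂ) → ℕ) (s : ℂ) : ℂ :=
  ∏ᶠ χ ∈ Irr G, D.L χ s ^ m χ

/-- The character of the permutation representation of `G` on the cosets of `U`. The twist by it is
the base change of the motive to the fixed field of `U`. -/
noncomputable def perm (U : Subgroup G) : G → ℂ := ind U (fun _ => (1 : ℂ))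

/-- `k` is the order at `c` of the L-function of the twist by a complex representation with the
character `f`. -/
def TwistData.HasOrder (D : TwistData G E c) (f : G → ℂ) (k : ℤ) : Prop :=
  ∃ m : (G → ℂ) → ℕ, IsDecomp f m ∧ meromorphicOrderAt (D.lfun m) c = k

/-- The subgroup generated by the commutator subgroups of the `p`-subgroups of `N`. If `N` is normal
in `G`, it is the smallest normal subgroup `R ≤ N` of `G` such that the Sylow `p`-subgroups of `N / R`
are abelian. -/
def pDerived (p : ℕ) (N : Subgroup G) : Subgroup G :=
  ⨆ Q : {Q : Subgroup G // Q ≤ N ∧ IsPGroup p Q}, ⁅(Q : Subgroup G), (Q : Subgroup G)⁆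

/-- We have `s p < p ^ n` whenever `p` is a prime, `n ≥ 1`, the group `N / N'` has at least
`p ^ (2 n)` elements of order dividing `p`, and there are a prime divisor `q ≠ p` of the index of `N`
and `1 ≤ i ≤ 2 n` such that `q` divides `p ^ i - 1`. -/
def Few (N N' : Subgroup G) (s : ℕ → ℕ) : Prop :=
  ∀ p n : ℕ, p.Prime → 0 < n →
    p ^ (2 * n) * Nat.card N' ≤ Nat.card {x : G // x ∈ N ∧ x ^ p ∈ N'} →
    (∃ q i : ℕ, q.Prime ∧ q ≠ p ∧ q ∣ N.index ∧ 0 < i ∧ i ≤ 2 * n ∧ q ∣ p ^ i - 1) → s p < p ^ n

/-- A Heilbronn function: a class function on the finite group `T` which has nonnegative integral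
multiplicities at the linear characters of all subgroups. -/
structure Heilbronn {T : Type} [Group T] (η : T → ℂ) : Prop where
  conj : ∀ g h : T, η (h * g * h⁻¹) = η g
  mult : ∀ (H : Subgroup T) (χ : H →* ℂˣ), ∃ n : ℕ,
    ∑ᶠ h : H, η h * (((χ h)⁻¹ : ℂˣ) : ℂ) = (n : ℂ) * (Nat.card H : ℂ)

/-- The groups allowed for the order `r`:
* alternating groups `A_m`, `m ≥ 5`, with `r < (2 ^ j - 1) ⌊m / 2 ^ j⌋` for some `j ≥ 2`;
* special linear groups `SL_n(k)`, where `k` has `q` elements and characteristic two, `n = a + b`
  with `a, b ≥ 1` coprime and `r gcd(n, q - 1) (q - 1) < (q ^ a - 1) (q ^ b - 1)`;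
* special linear groups `SL_n(k)`, `n ≥ 3`, where `k` has `q` elements and odd characteristic `p`, if
  `r < n`, or if `p ≤ n` and `r gcd(n, q - 1) < q ^ (n - 1) - 1`;
* groups all of whose Heilbronn functions of degree at most `r` are constant (the groups of the
  first three kinds have this property). -/
def Allowed (r : ℕ) (T : Type) [Group T] : Prop :=
  (∃ m j : ℕ, 5 ≤ m ∧ 2 ≤ j ∧ r < (2 ^ j - 1) * (m / 2 ^ j) ∧
    Nonempty (T ≃* alternatingGroup (Fin m))) ∨
  (∃ (k : Type) (_ : Field k) (_ : Finite k) (_ : CharP k 2) (n a b : ℕ),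
    n = a + b ∧ 0 < a ∧ 0 < b ∧ Nat.Coprime a b ∧
    r * Nat.gcd n (Nat.card k - 1) * (Nat.card k - 1)
      < (Nat.card k ^ a - 1) * (Nat.card k ^ b - 1) ∧
    Nonempty (T ≃* Matrix.SpecialLinearGroup (Fin n) k)) ∨
  (∃ (k : Type) (_ : Field k) (_ : Finite k) (n : ℕ), (2 : k) ≠ 0 ∧ 3 ≤ n ∧
    (r < n ∨
      (ringChar k ≤ n ∧ r * Nat.gcd n (Nat.card k - 1) < Nat.card k ^ (n - 1) - 1)) ∧
    Nonempty (T ≃* Matrix.SpecialLinearGroup (Fin n) k)) ∨
  ∀ η : T → ℂ, Heilbronn η → ∀ s : ℕ, s ≤ r → η 1 = s → ∀ t, η t = η 1

/-- `N` is normal in `H` and generated by finitely many pairwise commuting subgroups which are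
homomorphic images of finite groups allowed for `r`. -/
def Product (r : ℕ) {H : Type} [Group H] (N : Subgroup H) : Prop :=
  N.Normal ∧ ∃ (m : ℕ) (X : Fin m → Subgroup H),
    (∀ i j, i ≠ j → ∀ a ∈ X i, ∀ b ∈ X j, a * b = b * a) ∧ N = ⨆ i, X i ∧
    ∀ i, ∃ (T : Type) (_ : Group T) (_ : Finite T) (h : T →* H), Allowed r T ∧ h.range = X i

/-- `A` is an abelian normal subgroup of `H` such that every nontrivial linear character of `A` has
more than `r` conjugates under `H`. -/
def Orbits (r : ℕ) {H : Type} [Group H] (A : Subgroup H) : Prop :=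
  A.Normal ∧ (∀ a ∈ A, ∀ b ∈ A, a * b = b * a) ∧ ∀ ψ : A →* ℂˣ, ψ ≠ 1 →
    r < Nat.card {ψ' : A →* ℂˣ // ∃ g : H, ∀ a b : A, (b : H) = g * a * g⁻¹ → ψ' a = ψ b}

/-- `N` is a normal subgroup of `H` obtained from the trivial subgroup by finitely many steps
`M ≤ N` where `N / M` satisfies `Product r` or `Orbits r` in `H / M`. -/
inductive Built (r : ℕ) {H : Type} [Group H] : Subgroup H → Prop
  | bot : Built r ⊥
  | prod (M N : Subgroup H) [M.Normal] (hM : Built r M) (hMN : M ≤ N)
      (h : Product r (N.map (QuotientGroup.mk' M))) : Built r N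
  | orb (M N : Subgroup H) [M.Normal] (hM : Built r M) (hMN : M ≤ N)
      (h : Orbits r (N.map (QuotientGroup.mk' M))) : Built r N

theorem Allowed.facO {r : ℕ} {T : Type} [Group T] (h : Allowed r T) : FacO r T := by
  rcases h with h | h | h | h
  · exact Or.inl (Or.inl h)
  · exact Or.inl (Or.inr (Or.inl h))
  · exact Or.inr (Or.inl h)
  · exact Or.inr (Or.inr (fun η hη => h η ⟨hη.conj, hη.mult⟩))

theorem Product.layC {r : ℕ} {H : Type} [Group H] {N : Subgroup H} (h : Product r N) :
    LayC (FacO r) N := by
  obtain ⟨h1, m, X, h2, h3, h4⟩ := h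
  refine ⟨h1, m, X, h2, h3, fun i => ?_⟩
  obtain ⟨T, hT1, hT2, f, h5, h6⟩ := h4 i
  exact ⟨T, hT1, hT2, f, h5.facO, h6⟩

theorem Built.builtC {r : ℕ} {H : Type} [Group H] {N : Subgroup H} (h : Built r N) :
    BuiltC r (FacO r) N := by
  induction h with
  | bot => exact BuiltC.bot
  | prod M N _ hMN h ih => exact BuiltC.lay M N ih hMN h.layC
  | orb M N _ hMN h ih => exact BuiltC.orb M N ih hMN h

open Pool.Agent.W446.AS in
/-- The regular representation contains every irreducible representation with its degree as the
multiplicity. -/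
theorem deg_of_regular {G : Type} [Group G] [Finite G] {m : (G → ℂ) → ℕ}
    (hm : IsDecomp (perm (⊥ : Subgroup G)) m) : ∀ χ ∈ Irr G, χ 1 = m χ := by
  classical
  intro χ hχ
  have h1 := hm.pr hχ
  rw [← h1]
  have h2 : (perm (⊥ : Subgroup G) : G → ℂ) = ind (⊥ : Subgroup G) (fun _ => (1 : ℂ)) := rfl
  rw [h2, frob _ _ (Irr.conj hχ), pr]
  have h3 : Nat.card (⊥ : Subgroup G) = 1 := Subgroup.card_bot
  rw [h3, finsum_unique]
  have h4 : (((default : (⊥ : Subgroup G))⁻¹ : (⊥ : Subgroup G)) : G) = 1 :=
    Subgroup.mem_bot.1 ((default : (⊥ : Subgroup G))⁻¹).2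
  simp only [h4]
  norm_num

/-- **Deligne's conjecture for rational Artin twists, nonsolvable groups.** Suppose that the
conjecture holds at `c` for the twists by all monomial characters `Ind_U^G ψ` of `G`. Let `r` be the
order at `c` of the L-function of the base change to `K`, and let `π` be a homomorphism of `G` onto a
group `Q` whose kernel is built from layers of groups in `Allowed r` (`Built r`). Let `Q = N 0 ≥ … ≥ N l = 1` be normal
subgroups of `Q` with abelian quotients `N k / N (k + 1)`, let `b k p` be the order at `c` of the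
L-function of the base change to the fixed field of the preimage of `pDerived p (N k)`, and let
`r ≤ b k p + s k p`, where `s k p < p ^ n` for all `p`, `n` as in the definition of `Few`. Let `ρ` be a
representation of `G` over `ℚ`, containing `χ` with the multiplicity `m χ`, and let `Ω` be the period of
`M ⊗ ρ`. Then `L(M ⊗ ρ, s)` has no pole at `c`, and its value is a rational multiple of `Ω`. -/
theorem result (G : Type) [Group G] [Finite G] (E : Type) [Field E] [NumberField E] (ζ : E)
    (hζ : IsPrimitiveRoot ζ (Monoid.exponent G)) (c : ℂ) (D : TwistData G E c)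
    (hmon : ∀ (U : Subgroup G) (ψ : U →* Eˣ), D.Holds (ind U (fun u => ((ψ u : Eˣ) : E))))
    (r : ℕ) (hr : D.HasOrder (perm ⊥) r) (Q : Type) [Group Q] (π : G →* Q)
    (hπ : Function.Surjective π) (hR : Built r π.ker)
    (l : ℕ) (N : ℕ → Subgroup Q) (hnormal : ∀ k, (N k).Normal) (h0 : N 0 = ⊤) (hl : N l = ⊥)
    (hle : ∀ k < l, N (k + 1) ≤ N k) (hab : ∀ k < l, ⁅N k, N k⁆ ≤ N (k + 1)) (b : ℕ → ℕ → ℤ)
    (hb : ∀ k < l, ∀ p : ℕ, p.Prime → D.HasOrder (perm ((pDerived p (N k)).comap π)) (b k p))
    (s : ℕ → ℕ → ℕ) (hs : ∀ k < l, ∀ p : ℕ, p.Prime → (r : ℤ) ≤ b k p + s k p)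
    (hfew : ∀ k < l, Few (N k) (N (k + 1)) (s k))
    (V : Type) [AddCommGroup V] [Module ℚ V] [FiniteDimensional ℚ V] (ρ : Representation ℚ G V)
    (m : (G → ℂ) → ℕ) (hm : IsDecomp (fun g => ((ρ.character g : ℚ) : ℂ)) m)
    (Ω : ℂ) (u : E) (hΩ : ∀ τ : E →+* ℂ, ∏ᶠ χ ∈ Irr G, D.P τ χ ^ m χ = τ u * Ω) :
    ∃ q : ℚ, Tendsto (D.lfun m) (𝓝[≠] c) (𝓝 (q * Ω)) := by
  have hfin : Finite Q := Finite.of_surjective π hπ
  have hQ : Group.IsSolvable Q := by
    have key : ∀ k ≤ l, derivedSeries Q k ≤ N k := by
      intro k
      induction k with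
      | zero =>
        intro _
        rw [h0]
        exact le_top
      | succ k ih =>
        intro hk
        rw [derivedSeries_succ]
        exact (Subgroup.commutator_mono (ih (by omega)) (ih (by omega))).trans (hab k (by omega))
    refine ⟨⟨l, ?_⟩⟩
    rw [eq_bot_iff, ← hl]
    exact key l le_rfl
  obtain ⟨m', hm', hma⟩ := hr
  exact Pool.Agent.N28.DL.main_quot hζ D.mero D.period hmon (deg_of_regular hm') hma hQ hπ
    hR.builtC l N
    hnormal h0 hl hle hab s hfew b hb hs ρ hm hΩ

end Pool.Agent.Results.MP_b696eb_nt.RationalTwistsNonsolvable
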