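import Mathlib
import Pool.Agent.N28.DW.MainQ
import Pool.Agent.N28.DL.Quot

/-!
# Deligne's conjecture for all Artin twists of a rational motive, at most three zeros, any group

Let `M` be a pure motive over `ℚ` with rational coefficients, critical at the integer `c` (one can
replace `M` by `M(c)`, and `c` by `0`), and let `K/ℚ` be a Galois extension with an ARBITRARY finite
group `G`. Let `E` be a number field which contains the roots of unity of order the exponent of `G`.

* `L χ`, for an irreducible complex character `χ` of `G`, is the L-function of the twist of `M` by
  `χ`. Since `M` has rational coefficients it does not depend on an embedding of `E`. It is assumed to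
  be holomorphic at the critical point `c` (this is expected for all critical motives); it may vanish.
* `P τ χ`, for an embedding `τ` of `E`, is the component at `τ` of the period of `M ⊗ χ'`, where `χ'` is
  the Artin motive over `E` with `τ ∘ χ' = χ`.

L-functions and periods of direct sums are products. The subgroups `U` of `G` are the subfields `K^U` of
`K`, and `ord U` is the order at `c` of the L-function of `M` over `K^U`. For a rational
representation `ρ` of `G` the motive `M ⊗ ρ` has rational coefficients; its period
`Ω = c⁺(M ⊗ ρ)` is a complex number, given up to a rational factor. After the extension of the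
coefficients to `E` it is the product of the periods `P τ χ` over the irreducible constituents, up to
a factor `u` in `E`.

The theorem is Deligne's conjecture for the twists of `M` by all representations of `G` over `E`,
and the assertion `L(M ⊗ ρ, c) ∈ ℚ Ω` for all rational `ρ`, assuming the conjecture for the twists by the
monomial characters `Ind_U^G ψ` (that is, for the twists of the base change of `M` to the subfields of
`K` by Hecke characters of finite order), when few zeros are present. If there are no
zeros this is Brauer's theorem on induced characters; but this theorem needs quotients of L-values.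
No group is excluded: it suffices that `L(M/K, s)` has at most three zeros at `c`. More generally we
allow any number of zeros, if

* at most 3 of them do not come from the largest Galois subextension of `K` whose group has abelian
  Sylow 2-subgroups, and at most 5 do not come from the one whose group has abelian
  Sylow 3-subgroups;
* for every prime `p ≥ 5`, at most `p - 2` of them do not come from the largest Galois subextension of degree
  prime to `p`; or fewer than `p (p - 1)` of them do not come from the largest Galois subextension whose
  group has abelian Sylow `p`-subgroups, and no quasisimple quotient of a subgroup of `G` has order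
  divisible by `p` (for instance, `G` is solvable).

The only other hypothesis is a consequence of the functional equation: if a subgroup `H` of `G` has a
homomorphism `q` onto the quaternion group of order eight, then the order at `c` of the L-function of
the twist of `M` by the character induced from the inflation of the two-dimensional irreducible
character is not one. (Zeros at critical points are central, so the weight of `M` is odd; a
polarization is symplectic, and the twist by a symplectic representation is orthogonal with
root number one; so the order is even.) For the group `SL_2(3)` and four zeros the conclusion does not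
follow formally from the hypotheses.

The zero sets of the L-values are Galois stable because of the conjecture for the monomial
characters. Let `θ` be the character of `G` which contains `χ` as often as `L χ` vanishes at `c`. The
proof shows that in every primitive section `X` of `G` the part of `θ` is invariant under a
nontrivial normal subgroup of `X`: sections of order divisible by `p ≥ 5` are
treated by an element of order `p`, the others are solvable by Burnside's theorem, and there one uses
an extraspecial subgroup; its faithful characters are excluded by their degree and their number of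
Galois conjugates, and by the parity for the quaternion group. Then the irreducible
characters of `G` are monomial or combinations of monomial characters whose L-functions do not vanish.
-/

set_option autoImplicit false

open Pool.Agent.H302R2 Pool.Agent.H541R3.ART Pool.Agent.R389 Filter Topology

namespace Pool.Agent.Results.MP_b696eb_nt.ThreeZeros

/-- The L-functions and the periods at `c` of the twists of a motive with rational coefficients by
the irreducible characters of the finite group `G`. The periods depend on an embedding of `E`. -/
structure TwistData (G : Type) [Group G] (E : Type) [Field E] (c : ℂ) where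
  /-- the L-function of the twist by `χ` -/
  L : (G → ℂ) → ℂ → ℂ
  /-- the component at `τ` of the period of the twist by `χ` -/
  P : (E →+* ℂ) → (G → ℂ) → ℂ
  /-- the L-functions are meromorphic at `c` and not identically zero near `c` -/
  mero : ∀ χ ∈ Irr G, MeromorphicAt (L χ) c ∧ meromorphicOrderAt (L χ) c ≠ ⊤
  /-- the L-functions have no pole at `c` -/
  holo : ∀ χ ∈ Irr G, 0 ≤ meromorphicOrderAt (L χ) c
  /-- the periods are not zero -/
  period : ∀ τ, ∀ χ ∈ Irr G, P τ χ ≠ 0

variable {G : Type} [Group G] {E : Type} [Field E] {c : ℂ}

/-- Deligne's conjecture for the twist by the representation over `E` with the character `f`. -/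
def TwistData.Holds (D : TwistData G E c) (f : G → E) : Prop := Deligne (fun _ => D.L) D.P c f

/-- the L-function of the twist by the complex representation which contains `m χ` times the
irreducible representation with the character `χ` -/
noncomputable def TwistData.lfun (D : TwistData G E c) (m : (G → ℂ) → ℕ) (s : ℂ) : ℂ :=
  ∏ᶠ χ ∈ Irr G, D.L χ s ^ m χ

/-- The character of the permutation representation of `G` on the cosets of `U`. The twist by it is
the base change of the motive to the fixed field of `U`. -/
noncomputable def perm (U : Subgroup G) : G → ℂ := ind U (fun _ => (1 : ℂ))

/-- `k` is the order at `c` of the L-function of the twist by a complex representation with the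
character `f`. -/
def TwistData.HasOrder (D : TwistData G E c) (f : G → ℂ) (k : ℤ) : Prop :=
  ∃ m : (G → ℂ) → ℕ, IsDecomp f m ∧ meromorphicOrderAt (D.lfun m) c = k

/-- the subgroup generated by the elements of `p`-power order -/
def pGenerated (p : ℕ) (G : Type) [Group G] : Subgroup G :=
  Subgroup.closure {x | ∃ k : ℕ, x ^ p ^ k = 1}

/-- the subgroup generated by the commutator subgroups of the `p`-subgroups -/
def pDerived (p : ℕ) (G : Type) [Group G] : Subgroup G :=
  ⨆ Q : {Q : Subgroup G // IsPGroup p Q}, ⁅(Q : Subgroup G), (Q : Subgroup G)⁆

/-- `X` is isomorphic to a quotient of a subgroup of `G`. -/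
def IsSection (G X : Type) [Group G] [Group X] : Prop :=
  ∃ (H : Subgroup G) (q : H →* X), Function.Surjective q

/-- `T` is a nontrivial perfect group all of whose proper normal subgroups are central. -/
def Quasisimple (T : Type) [Group T] : Prop :=
  (∃ t : T, t ≠ 1) ∧ commutator T = ⊤ ∧ ∀ N : Subgroup T, N.Normal → N = ⊤ ∨ N ≤ Subgroup.center T

theorem derP_eq (p : ℕ) (G : Type) [Group G] :
    Pool.Agent.N28.DL.derP p (⊤ : Subgroup G) = pDerived p G := by
  apply le_antisymm
  · refine iSup_le fun Q => ?_
    exact le_iSup (fun Q : {Q : Subgroup G // IsPGroup p Q} =>
      ⁅(Q : Subgroup G), (Q : Subgroup G)⁆) ⟨Q, Q.2.2⟩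
  · exact iSup_le fun Q => Pool.Agent.N28.DL.derP_le le_top Q.2

/-- **Deligne's conjecture for all Artin twists of a rational motive, arbitrary groups.** Suppose that
the conjecture holds at `c` for the twists by all monomial characters `Ind_U^G ψ` of the finite group
`G`. Let `ord U` be the order at `c` of the L-function of the base change to the fixed field of `U`.
Suppose that the order of the twist by a character induced from the quaternion character of a
quotient of a subgroup is never one. Suppose `ord ⊥ ≤ ord (pDerived 2 G) + 3`,
`ord ⊥ ≤ ord (pDerived 3 G) + 5`, and for every prime `p ≥ 5`: `ord ⊥ < ord (pGenerated p G) + (p - 1)`, or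
`ord ⊥ < ord (pDerived p G) + p (p - 1)` and no quasisimple section of `G` has order divisible by `p`.
(All this is true if `ord ⊥ ≤ 3`.) Then the conjecture holds at `c` for the twists by all
representations of `G` over `E`. Moreover, if `ρ` is a representation of `G` over `ℚ`,
containing `χ` with the multiplicity `m χ`, and `Ω` is the period of `M ⊗ ρ`, then the value of `L(M ⊗ ρ, s)` at
`c` is a rational multiple of `Ω`. -/
theorem result (G : Type) [Group G] [Finite G] (E : Type) [Field E] [NumberField E] (ζ : E)
    (hζ : IsPrimitiveRoot ζ (Monoid.exponent G)) (c : ℂ) (D : TwistData G E c)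
    (hmon : ∀ (U : Subgroup G) (ψ : U →* Eˣ), D.Holds (ind U (fun u => ((ψ u : Eˣ) : E))))
    (ord : Subgroup G → ℤ) (hord : ∀ U : Subgroup G, D.HasOrder (perm U) (ord U))
    (hquat : ∀ (H : Subgroup G) (q : H →* QuaternionGroup 2), Function.Surjective q →
      ¬ D.HasOrder (ind H (fun h => quatChar (q h))) 1)
    (h2 : ord ⊥ ≤ ord (pDerived 2 G) + 3) (h3 : ord ⊥ ≤ ord (pDerived 3 G) + 5)
    (h5 : ∀ p : ℕ, p.Prime → 5 ≤ p → ord ⊥ < ord (pGenerated p G) + (p - 1) ∨
      (ord ⊥ < ord (pDerived p G) + p * (p - 1) ∧
        ∀ (T : Type) [Group T] [Finite T], IsSection G T → Quasisimple T → ¬ p ∣ Nat.card T)) :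
    (∀ (V : Type) [AddCommGroup V] [Module E V] [FiniteDimensional E V]
      (ρ : Representation E G V), D.Holds ρ.character) ∧
    ∀ (V : Type) [AddCommGroup V] [Module ℚ V] [FiniteDimensional ℚ V] (ρ : Representation ℚ G V)
      (m : (G → ℂ) → ℕ), IsDecomp (fun g => ((ρ.character g : ℚ) : ℂ)) m →
      ∀ (Ω : ℂ) (u : E), (∀ τ : E →+* ℂ, ∏ᶠ χ ∈ Irr G, D.P τ χ ^ m χ = τ u * Ω) →
        ∃ q : ℚ, Tendsto (D.lfun m) (𝓝[≠] c) (𝓝 (q * Ω)) := by
  obtain ⟨τ₀⟩ : Nonempty (E →+* ℂ) := inferInstance
  have hall := Pool.Agent.N28.DL.main_W hζ D.mero D.holo D.period hmon ord hord
    (fun H q hq m hm h1 => hquat H q hq ⟨m, hm, h1⟩)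
    (a := fun p => (ord ⊥ - ord (pGenerated p G)).toNat)
    (b := fun p => (ord ⊥ - ord (pDerived p G)).toNat)
    (fun p _ => by
      have := Int.self_le_toNat (ord ⊥ - ord (pGenerated p G))
      change ord ⊥ ≤ ord (pGenerated p G) + _
      omega)
    (fun p _ => by
      have := Int.self_le_toNat (ord ⊥ - ord (pDerived p G))
      rw [derP_eq]
      omega)
    (by omega) (Or.inr (by omega))
    (fun p hp h => by
      rcases h5 p hp h with h6 | ⟨h6, h7⟩
      · left
        change (ord ⊥ - ord (pGenerated p G)).toNat < p - 1
        omega
      · right
        refine ⟨?_, fun T _ _ hs hT => h7 T hs hT⟩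
        change (ord ⊥ - ord (pDerived p G)).toNat < p * (p - 1)
        have h8 : ((p - 1 : ℕ) : ℤ) = (p : ℤ) - 1 := by omega
        rw [← h8] at h6
        have h9 : 0 < p * (p - 1) := Nat.mul_pos (by omega) (by omega)
        omega) τ₀
  refine ⟨fun V _ _ _ ρ => ?_, fun V _ _ _ ρ m hm Ω u hΩ => ?_⟩
  · exact Pool.Agent.N28.DL.bridge hζ (fun _ => D.mero) D.period hmon τ₀
      (fun χ hχ => Pool.Agent.N28.DL.mem_sup_of (hall χ hχ)) ρ
  · exact Pool.Agent.N28.DL.rat_form hζ D.mero D.period hmon
      (fun χ hχ => Pool.Agent.N28.DL.mem_sup_of (hall χ hχ)) ρ hm hΩ

end Pool.Agent.Results.MP_b696eb_nt.ThreeZeros
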